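import Pool.Agent.H87.GS.DetMain
import Pool.Agent.H22.GS.Targets
import Pool.Agent.H93.DE.PIL

/-!
# The deterministic lemma with a threshold: the statement of the board
-/

set_option autoImplicit false

open Finset Pool.Agent.H18.MR Pool.Agent.H93.DE Pool.Agent.H6.N4D Pool.Agent.H93
  Pool.Agent.H93.ES Pool.Agent.H22.GS Pool.Agent.H87.ES Pool.Agent.H87.GS

namespace Pool.Agent.H87.GS1

lemma wm_kB (f : ℕ → ℝ) (w q r : ℕ) (β : ℝ) : wm f w (kB q r β) = A1 (FF f β) (2 ^ w) q r := by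
  unfold wm kB A1 FF
  rw [Finset.sum_filter, Finset.mul_sum, Finset.sum_div]
  refine Finset.sum_congr rfl fun t _ => ?_
  split_ifs
  · push_cast
    ring
  · simp

lemma wm_ee (f : ℕ → ℝ) (w : ℕ) (α : ℝ) :
    wm f w (fun t => ee (-(α * t))) = A1 (FF f α) (2 ^ w) 1 0 := by
  unfold wm A1 FF
  simp only [one_dvd, Finset.filter_true]
  push_cast
  ring

lemma growth (c K : ℝ) (hc : 0 < c) : ∃ m₁ : ℕ, ∀ m ≥ m₁,
    K ≤ (1 / 2) ^ (m / 8) * (c * 2 ^ m / m) := by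
  obtain ⟨k, hk⟩ := pow_unbounded_of_one_lt (4 * K / c) (by norm_num : (1 : ℝ) < 2)
  refine ⟨2 * k + 1, fun m hm => ?_⟩
  have hm0 : (0 : ℝ) < m := by
    have : 0 < m := by omega
    exact_mod_cast this
  have h1 : (m : ℝ) ≤ 4 * 2 ^ (m / 4) := by
    have h2 : m / 4 + 1 ≤ 2 ^ (m / 4) := Nat.lt_two_pow_self
    have h3 : m ≤ 4 * 2 ^ (m / 4) := by omega
    exact_mod_cast h3
  have h2 : ((1 : ℝ) / 2) ^ (m / 8) * 2 ^ m = 2 ^ (m - m / 8) := by
    have h3 : m = m / 8 + (m - m / 8) := by omega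
    nth_rewrite 2 [h3]
    rw [pow_add, ← mul_assoc, ← mul_pow]
    norm_num
  have h3 : (2 : ℝ) ^ (m / 2) * 2 ^ (m / 4) ≤ 2 ^ (m - m / 8) := by
    rw [← pow_add]
    exact pow_le_pow_right₀ (by norm_num) (by omega)
  have h4 : (2 : ℝ) ^ k ≤ 2 ^ (m / 2) := pow_le_pow_right₀ (by norm_num) (by omega)
  have h5 : (1 / 2 : ℝ) ^ (m / 8) * (c * 2 ^ m / m) = c * 2 ^ (m - m / 8) / m := by
    rw [← h2]
    ring
  rw [h5, le_div_iff₀ hm0]
  rw [div_lt_iff₀ hc] at hk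
  have h6 : (0 : ℝ) < 2 ^ (m / 4) := by positivity
  rcases le_or_gt K 0 with hK | hK
  · have : K * m ≤ 0 := mul_nonpos_of_nonpos_of_nonneg hK hm0.le
    have h7 : (0 : ℝ) ≤ c * 2 ^ (m - m / 8) := by positivity
    linarith
  · calc K * m ≤ K * (4 * 2 ^ (m / 4)) := by gcongr
      _ = (4 * K) * 2 ^ (m / 4) := by ring
      _ ≤ (2 ^ k * c) * 2 ^ (m / 4) := by gcongr
      _ ≤ (2 ^ (m / 2) * c) * 2 ^ (m / 4) := by gcongr
      _ = c * (2 ^ (m / 2) * 2 ^ (m / 4)) := by ring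
      _ ≤ c * 2 ^ (m - m / 8) := by gcongr

theorem pf_DETt : T_DETt := by
  classical
  intro th C₀ hth hth1 _
  obtain ⟨c, m₀, hc, hpil⟩ := Pool.Agent.H93.DE.pf_PIL
  obtain ⟨M, hM, hmain⟩ := det_main (97 / 100 * th) (by positivity) (by linarith)
  obtain ⟨m₁, hm₁⟩ := growth c M hc
  obtain ⟨m₂, hm₂⟩ := pow_unbounded_of_one_lt (100 + 16 / (97 / 100 * th) ^ 2)
    (by norm_num : (1 : ℝ) < 2)
  refine ⟨C₀ + 1, 400 * (m₀ + m₁ + m₂ + 1), by linarith, ?_⟩
  intro k w m f S hw hm hm' hf hcov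
  have hm2 : m₀ + m₁ + m₂ + 1 ≤ w / 400 := by
    rw [Nat.le_div_iff_mul_le (by norm_num)]
    omega
  have h1 := hm₁ m (by omega)
  have h2 := hpil m (by omega)
  have h3 : ∑ q ∈ oct m, (((range q).filter (fun r₀ => ∃ β : ℝ, FarT q w S (C₀ + 1) β ∧
      97 / 100 * th ≤ ‖wm f w (kB q r₀ β)‖)).card : ℝ) / q ≤ M := by
    have h4 := hmain (2 ^ w) (oct m) (fun p hp => (mem_filter.1 hp).2)
      (2 ^ (m + 1)) (fun p hp => by
        have := (mem_Ioc.1 (mem_filter.1 hp).1).2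
        exact_mod_cast this) (by
        have h5 : (2 : ℝ) ^ m₂ * (2 ^ (m + 1)) ^ 4 ≤ 2 ^ w := by
          rw [← pow_mul, ← pow_add]
          exact pow_le_pow_right₀ (by norm_num) (by omega)
        push_cast
        refine le_trans ?_ h5
        gcongr) f hf k S C₀ (C₀ + 1) (by linarith) (by
        intro α hα
        obtain ⟨i, hi⟩ := hcov α (by
          rw [wm_ee]
          refine le_trans ?_ hα
          linarith)
        exact ⟨i, by push_cast; exact hi⟩)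
    refine le_trans (le_of_eq ?_) h4
    refine Finset.sum_congr rfl fun q _ => ?_
    congr 2
    refine congrArg _ (Finset.filter_congr fun r _ => ?_)
    refine exists_congr fun β => and_congr ?_ ?_
    · unfold FarT
      push_cast
      rfl
    · rw [wm_kB]
  calc _ ≤ M := by
        refine le_trans (le_of_eq ?_) h3
        refine Finset.sum_congr rfl fun q _ => ?_
        congr!
    _ ≤ (1 / 2) ^ (m / 8) * (c * 2 ^ m / m) := h1
    _ ≤ (1 / 2) ^ (m / 8) * (oct m).card := mul_le_mul_of_nonneg_left h2 (by positivity)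

end Pool.Agent.H87.GS1
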